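import Pool.Agent.Helper53.Comp.GoalsP

/-!
# Packet P4: the lifted fan
-/

namespace Mono

namespace Comp

namespace P4

open Finset

variable {n k : ℕ}

theorem lift_injective {blk : Fin n → Fin k} {N : Fin n → ℕ} (hb : Function.Surjective blk)
    (hN : ∀ j, 0 < N j) : Function.Injective (lift blk N) := by
  intro u v huv
  funext i
  obtain ⟨j, rfl⟩ := hb i
  have h1 := congrFun huv j
  simp only [lift] at h1
  have h2 : (N j : ℤ) ≠ 0 := by exact_mod_cast (hN j).ne'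
  exact mul_left_cancel₀ h2 h1

theorem mem_sel {blk : Fin n → Fin k} {c : Fin k → Fin n} :
    c ∈ sel blk ↔ ∀ i, blk (c i) = i := by
  simp [sel]

theorem exists_min {blk : Fin n → Fin k} (hb : Function.Surjective blk) (ρ : Fin n → ℝ) :
    ∃ c ∈ sel blk, ∀ j, ρ (c (blk j)) ≤ ρ j := by
  have h1 : ∀ i, ∃ j, blk j = i ∧ ∀ j', blk j' = i → ρ j ≤ ρ j' := by
    intro i
    obtain ⟨j0, hj0⟩ := hb i
    obtain ⟨j, hj, hmin⟩ := Finset.exists_min_image (univ.filter (fun j => blk j = i)) ρ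
      ⟨j0, by simp [hj0]⟩
    refine ⟨j, by simpa using hj, fun j' hj' => hmin j' (by simp [hj'])⟩
  choose c hc hmin using h1
  exact ⟨c, mem_sel.2 hc, fun j => hmin (blk j) j rfl⟩

theorem crd_shift {F Z : Finset (Fin k → ℤ)} (hF : Indep F) (hc : F.card = k)
    (x m : Fin k → ℝ)
    (hxm : ∀ i : Fin k, (Pi.single i 1 : Fin k → ℤ) ∉ F ∩ Z → m i = x i) :
    (∀ u ∈ F \ Z, crd F m u = crd F x u) ∧
    ∀ i : Fin k, (Pi.single i 1 : Fin k → ℤ) ∈ F ∩ Z →
      crd F m (Pi.single i 1) = crd F x (Pi.single i 1) + (m i - x i) := by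
  have h1 : m = ∑ u ∈ F, (crd F x u +
      ∑ i, if u = (Pi.single i 1 : Fin k → ℤ) ∧ u ∈ Z then m i - x i else 0) • toR u := by
    simp only [add_smul]
    rw [sum_add_distrib, sum_crd hF hc]
    have h3 : ∑ u ∈ F, (∑ i, if u = (Pi.single i 1 : Fin k → ℤ) ∧ u ∈ Z then m i - x i else 0) •
        toR u = m - x := by
      simp only [Finset.sum_smul]
      rw [Finset.sum_comm]
      funext l
      rw [Finset.sum_apply]
      have h2 : ∀ i : Fin k, (∑ u ∈ F, (if u = (Pi.single i 1 : Fin k → ℤ) ∧ u ∈ Z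
          then m i - x i else 0) • toR u) l = if l = i then m i - x i else 0 := by
        intro i
        by_cases hi : (Pi.single i 1 : Fin k → ℤ) ∈ F ∩ Z
        · rw [Finset.sum_eq_single (Pi.single i 1 : Fin k → ℤ)]
          · rw [if_pos ⟨rfl, (mem_inter.1 hi).2⟩]
            simp only [Pi.smul_apply, toR_apply, Pi.single_apply, smul_eq_mul]
            split_ifs <;> simp
          · intro u _ hu
            rw [if_neg (fun h => hu h.1), zero_smul]
          · intro h; exact absurd (mem_inter.1 hi).1 h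
        · have h4 := hxm i hi
          rw [Finset.sum_eq_zero]
          · simp [h4]
          · intro u hu
            by_cases h : u = (Pi.single i 1 : Fin k → ℤ) ∧ u ∈ Z
            · exact absurd (mem_inter.2 ⟨h.1 ▸ hu, h.1 ▸ h.2⟩) hi
            · rw [if_neg h, zero_smul]
      simp only [h2]
      simp
    rw [h3]; abel
  constructor
  · intro u hu
    rw [mem_sdiff] at hu
    rw [crd_eq hF h1 hu.1, Finset.sum_eq_zero, add_zero]
    intro i _
    rw [if_neg (fun h => hu.2 h.2)]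
  · intro i hi
    rw [mem_inter] at hi
    rw [crd_eq hF h1 hi.1, Finset.sum_eq_single i]
    · rw [if_pos ⟨rfl, hi.2⟩]
    · intro i' _ hi'
      rw [if_neg]
      rintro ⟨h, -⟩
      have h5 := congrFun h i
      rw [Pi.single_eq_same, Pi.single_eq_of_ne (Ne.symm hi')] at h5
      exact one_ne_zero h5
    · intro h; exact absurd (mem_univ _) h

theorem NA_le {A : Finset (Fin n → ℤ)} (a : Fin n → ℤ) {v : Fin n → ℤ} (hv : v ∈ A) :
    NA A a ≤ a ⬝ᵥ v := by
  unfold NA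
  apply csInf_le
  · refine (Set.Finite.bddBelow ?_)
    have : {z | ∃ v ∈ A, z = a ⬝ᵥ v} = ((A.image (fun v => a ⬝ᵥ v) : Finset ℤ) : Set ℤ) := by
      ext z
      simp only [coe_image, Set.mem_image, mem_coe]
      constructor
      · rintro ⟨v, hv, rfl⟩; exact ⟨v, hv, rfl⟩
      · rintro ⟨v, hv, rfl⟩; exact ⟨v, hv, rfl⟩
    rw [this]
    exact Finset.finite_toSet _
  · exact ⟨v, hv, rfl⟩

theorem NA_eq {A : Finset (Fin n → ℤ)} (a : Fin n → ℤ) {v : Fin n → ℤ} (hv : v ∈ A)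
    (hmin : ∀ u ∈ A, a ⬝ᵥ v ≤ a ⬝ᵥ u) : a ⬝ᵥ v = NA A a := by
  refine le_antisymm ?_ (NA_le a hv)
  unfold NA
  refine le_csInf ⟨a ⬝ᵥ v, v, hv, rfl⟩ ?_
  rintro z ⟨u, hu, rfl⟩
  exact hmin u hu

/-- Positive integral weights with the same sum over every block. -/
theorem exists_weights (blk : Fin n → Fin k) (N : Fin n → ℕ) (hb : Function.Surjective blk)
    (hN : ∀ j, 0 < N j) : ∃ (b : Fin n → ℤ) (M : ℤ), (∀ j, 0 < b j) ∧ 0 < M ∧
      ∀ i, ∑ j ∈ univ.filter (fun j => blk j = i), b j * N j = M := by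
  classical
  have hJ : ∀ i, 0 < (univ.filter (fun j => blk j = i)).card := by
    intro i
    obtain ⟨j, hj⟩ := hb i
    exact Finset.card_pos.2 ⟨j, by simp [hj]⟩
  refine ⟨fun j => (∏ j' ∈ univ.erase j, (N j' : ℤ)) *
      ∏ i' ∈ univ.erase (blk j), ((univ.filter (fun j => blk j = i')).card : ℤ),
    (∏ j', (N j' : ℤ)) * ∏ i', ((univ.filter (fun j => blk j = i')).card : ℤ), ?_, ?_, ?_⟩
  · intro j
    apply mul_pos
    · exact Finset.prod_pos fun j' _ => by exact_mod_cast hN j'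
    · exact Finset.prod_pos fun i' _ => by exact_mod_cast hJ i'
  · apply mul_pos
    · exact Finset.prod_pos fun j' _ => by exact_mod_cast hN j'
    · exact Finset.prod_pos fun i' _ => by exact_mod_cast hJ i'
  · intro i
    have h1 : ∀ j ∈ univ.filter (fun j => blk j = i), (∏ j' ∈ univ.erase j, (N j' : ℤ)) *
        (∏ i' ∈ univ.erase (blk j), ((univ.filter (fun j => blk j = i')).card : ℤ)) * N j =
        (∏ j', (N j' : ℤ)) *
          ∏ i' ∈ univ.erase i, ((univ.filter (fun j => blk j = i')).card : ℤ) := by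
      intro j hj
      have hj' : blk j = i := by simpa using hj
      rw [hj', ← Finset.prod_erase_mul univ (fun j' => (N j' : ℤ)) (mem_univ j)]
      ring
    rw [Finset.sum_congr rfl h1, Finset.sum_const, nsmul_eq_mul,
      ← Finset.prod_erase_mul univ
        (fun i' => ((univ.filter (fun j => blk j = i')).card : ℤ)) (mem_univ i)]
    ring

theorem dot_lift (blk : Fin n → Fin k) (N : Fin n → ℕ) (b : Fin n → ℤ) (M : ℤ)
    (hM : ∀ i, ∑ j ∈ univ.filter (fun j => blk j = i), b j * N j = M) (a u : Fin k → ℤ) :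
    (fun j => b j * a (blk j)) ⬝ᵥ lift blk N u = M * (a ⬝ᵥ u) := by
  simp only [dotProduct, lift]
  rw [← Finset.sum_fiberwise univ blk, Finset.mul_sum]
  refine Finset.sum_congr rfl fun i _ => ?_
  rw [← hM i, Finset.sum_mul]
  refine Finset.sum_congr rfl fun j hj => ?_
  have hj' : blk j = i := by simpa using hj
  rw [hj']
  ring

/-- The block-minimum has nonnegative coordinates in the cone below. -/
theorem key (h : LiftCrd) {A Z : Finset (Fin k → ℤ)} {Φ : Fan k} (hT : Tri A Z Φ)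
    {blk : Fin n → Fin k} {N : Fin n → ℕ} (hb : Function.Surjective blk) (hN : ∀ j, 0 < N j)
    {F : Finset (Fin k → ℤ)} (hF : F ∈ Φ.mx) {c : Fin k → Fin n} (hc : c ∈ sel blk)
    (ρ : Fin n → ℝ) (m : Fin k → ℝ) (hm1 : ∀ j, m (blk j) ≤ ρ j)
    (hm2 : ∀ i, ∃ j, blk j = i ∧ ρ j = m i)
    (hpos : ∀ v, 0 ≤ crd (liftCone blk N Z F c) (fun j => (N j : ℝ) * ρ j) v) :
    (∀ u, 0 ≤ crd F m u) ∧
    (∀ u ∈ F \ Z, crd (liftCone blk N Z F c) (fun j => (N j : ℝ) * ρ j) (lift blk N u) =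
      crd F m u) ∧
    (∀ j ∈ coneJ blk Z F c,
      crd (liftCone blk N Z F c) (fun j => (N j : ℝ) * ρ j) (Pi.single j 1) =
      (N j : ℝ) * (ρ j - m (blk j) +
        (if (Pi.single (blk j) 1 : Fin k → ℤ) ∈ F ∩ Z
          then crd F m (Pi.single (blk j) 1) else 0))) ∧
    ∀ i : Fin k, (Pi.single i 1 : Fin k → ℤ) ∉ F ∩ Z → m i = ρ (c i) := by
  obtain ⟨-, -, -, h4, h5, -⟩ := h n k A Z Φ hT blk N hb hN F hF c hc ρ
  have hcs := mem_sel.1 hc
  have hFi := Φ.mx_indep F hF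
  have hFc := Φ.mx_card F hF
  have hZ : ∀ z ∈ Z, ∃ i : Fin k, z = Pi.single i 1 := hT.2.2.2.2.2.1.2.1
  have hout : ∀ i : Fin k, (Pi.single i 1 : Fin k → ℤ) ∉ F ∩ Z → m i = ρ (c i) := by
    intro i hi
    apply le_antisymm
    · have := hm1 (c i)
      rwa [hcs i] at this
    · obtain ⟨j, hj, hjm⟩ := hm2 i
      by_cases hjc : j = c i
      · rw [← hjm, hjc]
      · have hjJ : j ∈ coneJ blk Z F c := by
          simp only [coneJ, mem_filter, mem_univ, true_and]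
          right
          rw [hj]; exact hjc
        have h6 := h5 j hjJ
        have h7 := hpos (Pi.single j 1)
        rw [h6, hj, if_neg hi, add_zero] at h7
        have h8 : (0 : ℝ) < N j := by exact_mod_cast hN j
        have h9 := nonneg_of_mul_nonneg_right h7 h8
        linarith
  have hin : ∀ i : Fin k, (Pi.single i 1 : Fin k → ℤ) ∈ F ∩ Z →
      0 ≤ crd F (fun i => ρ (c i)) (Pi.single i 1) + (m i - ρ (c i)) := by
    intro i hi
    obtain ⟨j, hj, hjm⟩ := hm2 i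
    have hjJ : j ∈ coneJ blk Z F c := by
      simp only [coneJ, mem_filter, mem_univ, true_and]
      left
      rw [hj]; exact hi
    have h6 := h5 j hjJ
    have h7 := hpos (Pi.single j 1)
    rw [h6, hj, if_pos hi] at h7
    have h8 : (0 : ℝ) < N j := by exact_mod_cast hN j
    have h9 := nonneg_of_mul_nonneg_right h7 h8
    linarith
  obtain ⟨hs1, hs2⟩ := crd_shift (Z := Z) hFi hFc (fun i => ρ (c i)) m hout
  refine ⟨?_, ?_, ?_, hout⟩
  · intro u
    by_cases hu : u ∈ F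
    · by_cases huZ : u ∈ Z
      · obtain ⟨i, rfl⟩ := hZ u huZ
        have hi := mem_inter.2 ⟨hu, huZ⟩
        rw [hs2 i hi]
        exact hin i hi
      · have hu' := mem_sdiff.2 ⟨hu, huZ⟩
        rw [hs1 u hu', ← h4 u hu']
        exact hpos _
    · rw [crd_of_notMem F _ hu]
  · intro u hu
    rw [h4 u hu, hs1 u hu]
  · intro j hj
    rw [h5 j hj]
    by_cases hi : (Pi.single (blk j) 1 : Fin k → ℤ) ∈ F ∩ Z
    · rw [if_pos hi, if_pos hi, hs2 _ hi]
      ring
    · rw [if_neg hi, if_neg hi, hout _ hi]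

/-- The generators of a lifted cone. -/
theorem mem_liftCone {blk : Fin n → Fin k} {N : Fin n → ℕ} {Z F : Finset (Fin k → ℤ)}
    {c : Fin k → Fin n} {v : Fin n → ℤ} : v ∈ liftCone blk N Z F c ↔
      (∃ u ∈ F \ Z, lift blk N u = v) ∨ ∃ j ∈ coneJ blk Z F c, Pi.single j 1 = v := by
  simp only [liftCone, mem_union, mem_image]

theorem liftCone_sub {A Z : Finset (Fin k → ℤ)} {Φ : Fan k} (hT : Tri A Z Φ)
    {blk : Fin n → Fin k} {N : Fin n → ℕ}
    {F : Finset (Fin k → ℤ)} (hF : F ∈ Φ.mx) {c : Fin k → Fin n} (hc : c ∈ sel blk) :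
    liftCone blk N Z F c ⊆ A.image (lift blk N) ∪ liftZ blk Z := by
  have hcs := mem_sel.1 hc
  intro v hv
  rw [mem_liftCone] at hv
  rcases hv with ⟨u, hu, rfl⟩ | ⟨j, hj, rfl⟩
  · rw [mem_sdiff] at hu
    have h1 := Φ.mx_sub F hF hu.1
    rw [hT.2.2.2.2.1, mem_union] at h1
    exact mem_union_left _ (mem_image_of_mem _ (h1.resolve_right hu.2))
  · refine mem_union_right _ ?_
    refine mem_image_of_mem _ ?_
    simp only [coneJ, mem_filter, mem_univ, true_and] at hj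
    simp only [zeroJ, mem_filter, mem_univ, true_and]
    rcases hj with hj | hj
    · left; exact (mem_inter.1 hj).2
    · right
      exact ⟨c (blk j), fun h => hj h.symm, hcs (blk j)⟩

/-- The maximal cones of the lifted fan. -/
def liftMx (blk : Fin n → Fin k) (N : Fin n → ℕ) (Z : Finset (Fin k → ℤ))
    (mx : Finset (Finset (Fin k → ℤ))) : Finset (Finset (Fin n → ℤ)) :=
  mx.biUnion (fun F => (sel blk).image (liftCone blk N Z F))

theorem mem_liftMx {blk : Fin n → Fin k} {N : Fin n → ℕ} {Z : Finset (Fin k → ℤ)}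
    {mx : Finset (Finset (Fin k → ℤ))} {F' : Finset (Fin n → ℤ)} :
    F' ∈ liftMx blk N Z mx ↔ ∃ F ∈ mx, ∃ c ∈ sel blk, liftCone blk N Z F c = F' := by
  simp only [liftMx, mem_biUnion, mem_image]

theorem rescale (N : Fin n → ℕ) (hN : ∀ j, 0 < N j) (y : Fin n → ℝ) :
    (fun j => (N j : ℝ) * (y j / N j)) = y := by
  funext j
  have h8 : (N j : ℝ) ≠ 0 := by exact_mod_cast (hN j).ne'
  field_simp

theorem cover (h : LiftCrd) {A Z : Finset (Fin k → ℤ)} {Φ : Fan k} (hT : Tri A Z Φ)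
    {blk : Fin n → Fin k} {N : Fin n → ℕ} (hb : Function.Surjective blk) (hN : ∀ j, 0 < N j)
    (y : Fin n → ℝ) (hy : ∀ j, 0 ≤ y j) :
    ∃ F' ∈ liftMx blk N Z Φ.mx, ∀ v, 0 ≤ crd F' y v := by
  obtain ⟨c, hc, hmin⟩ := exists_min hb (fun j => y j / N j)
  obtain ⟨F, hF, hpos⟩ := Φ.cover (fun i => y (c i) / N (c i))
    (fun i => div_nonneg (hy _) (Nat.cast_nonneg _))
  refine ⟨liftCone blk N Z F c, mem_liftMx.2 ⟨F, hF, c, hc, rfl⟩, ?_⟩
  obtain ⟨-, -, -, h4, h5, -⟩ := h n k A Z Φ hT blk N hb hN F hF c hc (fun j => y j / N j)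
  rw [rescale N hN y] at h4 h5
  intro v
  by_cases hv : v ∈ liftCone blk N Z F c
  · rw [mem_liftCone] at hv
    rcases hv with ⟨u, hu, rfl⟩ | ⟨j, hj, rfl⟩
    · rw [h4 u hu]; exact hpos u
    · rw [h5 j hj]
      refine mul_nonneg (Nat.cast_nonneg _) ?_
      have h6 := hmin j
      split_ifs with hi
      · have := hpos (Pi.single (blk j) 1)
        linarith
      · linarith
  · rw [crd_of_notMem _ _ hv]

theorem inter (h : LiftCrd) {A Z : Finset (Fin k → ℤ)} {Φ : Fan k} (hT : Tri A Z Φ)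
    {blk : Fin n → Fin k} {N : Fin n → ℕ} (hb : Function.Surjective blk) (hN : ∀ j, 0 < N j)
    {F₁ F₂ : Finset (Fin k → ℤ)} (hF₁ : F₁ ∈ Φ.mx) (hF₂ : F₂ ∈ Φ.mx) {c₁ c₂ : Fin k → Fin n}
    (hc₁ : c₁ ∈ sel blk) (hc₂ : c₂ ∈ sel blk) (y : Fin n → ℝ)
    (h₁ : ∀ v, 0 ≤ crd (liftCone blk N Z F₁ c₁) y v)
    (h₂ : ∀ v, 0 ≤ crd (liftCone blk N Z F₂ c₂) y v) (v : Fin n → ℤ)
    (hv : v ∉ liftCone blk N Z F₂ c₂) : crd (liftCone blk N Z F₁ c₁) y v = 0 := by
  obtain ⟨c, hc, hmin⟩ := exists_min hb (fun j => y j / N j)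
  have hcs := mem_sel.1 hc
  have hm2 : ∀ i, ∃ j, blk j = i ∧ y j / N j = y (c i) / N (c i) := fun i => ⟨c i, hcs i, rfl⟩
  have hy := rescale N hN y
  rw [← hy] at h₁ h₂
  obtain ⟨a1, b1, d1, -⟩ := key h hT hb hN hF₁ hc₁ (fun j => y j / N j)
    (fun i => y (c i) / N (c i)) hmin hm2 h₁
  obtain ⟨a2, b2, d2, e2⟩ := key h hT hb hN hF₂ hc₂ (fun j => y j / N j)
    (fun i => y (c i) / N (c i)) hmin hm2 h₂
  rw [hy] at b1 d1 b2 d2
  have hI := Φ.inter F₁ hF₁ F₂ hF₂ _ a1 a2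
  have hpos1 := h₁
  have hpos2 := h₂
  rw [hy] at h₁ h₂
  by_cases hv1 : v ∈ liftCone blk N Z F₁ c₁
  swap
  · exact crd_of_notMem _ _ hv1
  rw [mem_liftCone] at hv1
  rcases hv1 with ⟨u, hu, rfl⟩ | ⟨j, hj, rfl⟩
  · rw [b1 u hu]
    apply hI
    intro hu2
    exact hv (mem_liftCone.2 (Or.inl ⟨u, mem_sdiff.2 ⟨hu2, (mem_sdiff.1 hu).2⟩, rfl⟩))
  · have hj2 : j ∉ coneJ blk Z F₂ c₂ := fun hj2 => hv (mem_liftCone.2 (Or.inr ⟨j, hj2, rfl⟩))
    simp only [coneJ, mem_filter, mem_univ, true_and, not_or, not_not] at hj2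
    obtain ⟨hj3, hj4⟩ := hj2
    have hout : y (c (blk j)) / N (c (blk j)) = y j / N j := by
      rw [e2 (blk j) hj3, ← hj4]
    rw [d1 j hj, hout]
    split_ifs with hi
    · rw [hI (Pi.single (blk j) 1) (fun h9 => hj3 (mem_inter.2 ⟨h9, (mem_inter.1 hi).2⟩))]
      ring
    · ring

/-- The lifted fan. -/
noncomputable def liftedFan (h : LiftCrd) {A Z : Finset (Fin k → ℤ)} {Φ : Fan k}
    (hT : Tri A Z Φ) {blk : Fin n → Fin k} {N : Fin n → ℕ} (hb : Function.Surjective blk)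
    (hN : ∀ j, 0 < N j) : Fan n where
  vert := A.image (lift blk N) ∪ liftZ blk Z
  mx := liftMx blk N Z Φ.mx
  vert_nonneg := by
    intro v hv j
    rw [mem_union] at hv
    rcases hv with hv | hv
    · obtain ⟨u, hu, rfl⟩ := mem_image.1 hv
      exact mul_nonneg (by positivity) (hT.2.1 u hu _)
    · obtain ⟨j', -, rfl⟩ := mem_image.1 hv
      rw [Pi.single_apply]
      split_ifs <;> norm_num
  mx_sub := by
    intro F' hF'
    obtain ⟨F, hF, c, hc, rfl⟩ := mem_liftMx.1 hF'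
    exact liftCone_sub hT hF hc
  mx_card := by
    intro F' hF'
    obtain ⟨F, hF, c, hc, rfl⟩ := mem_liftMx.1 hF'
    exact (h n k A Z Φ hT blk N hb hN F hF c hc 0).2.1
  mx_indep := by
    intro F' hF'
    obtain ⟨F, hF, c, hc, rfl⟩ := mem_liftMx.1 hF'
    exact (h n k A Z Φ hT blk N hb hN F hF c hc 0).1
  cover := fun y hy => cover h hT hb hN y hy
  inter := by
    intro F₁' hF₁' F₂' hF₂' y h₁ h₂ v hv
    obtain ⟨F₁, hF₁, c₁, hc₁, rfl⟩ := mem_liftMx.1 hF₁'
    obtain ⟨F₂, hF₂, c₂, hc₂, rfl⟩ := mem_liftMx.1 hF₂'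
    exact inter h hT hb hN hF₁ hF₂ hc₁ hc₂ y h₁ h₂ v hv

theorem single_inj {j j' : Fin n} (h : (Pi.single j 1 : Fin n → ℤ) = Pi.single j' 1) :
    j = j' := by
  by_contra hne
  have h5 := congrFun h j
  rw [Pi.single_eq_same, Pi.single_eq_of_ne hne] at h5
  exact one_ne_zero h5

theorem disj {A Z : Finset (Fin k → ℤ)} {Φ : Fan k} (hT : Tri A Z Φ)
    {blk : Fin n → Fin k} {N : Fin n → ℕ} (hb : Function.Surjective blk) (hN : ∀ j, 0 < N j) :
    Disjoint (A.image (lift blk N)) (liftZ blk Z) := by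
  rw [Finset.disjoint_left]
  intro v hv hvZ
  obtain ⟨u, hu, rfl⟩ := mem_image.1 hv
  obtain ⟨j, hj, hju⟩ := mem_image.1 hvZ
  have h1 : ∀ j', (Pi.single j 1 : Fin n → ℤ) j' = (N j' : ℤ) * u (blk j') :=
    fun j' => congrFun hju j'
  have h2 := h1 j
  rw [Pi.single_eq_same] at h2
  have h3 : u (blk j) ≠ 0 := by
    intro h; rw [h, mul_zero] at h2; exact one_ne_zero h2
  simp only [zeroJ, mem_filter, mem_univ, true_and] at hj
  -- `u (blk j) = 1`
  have h4 : u (blk j) = 1 := by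
    have h5 : 0 ≤ u (blk j) := hT.2.1 u hu _
    have h6 : u (blk j) ∣ 1 := ⟨N j, by rw [h2]; ring⟩
    exact Int.eq_one_of_dvd_one h5 h6
  have h7 : ∀ i, i ≠ blk j → u i = 0 := by
    intro i hi
    obtain ⟨j', rfl⟩ := hb i
    have hne : j' ≠ j := fun h => hi (by rw [h])
    have h8 := h1 j'
    rw [Pi.single_eq_of_ne hne] at h8
    rcases mul_eq_zero.1 h8.symm with h9 | h9
    · exact absurd h9 (by exact_mod_cast (hN j').ne')
    · exact h9
  have h10 : u = Pi.single (blk j) 1 := by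
    funext i
    by_cases hi : i = blk j
    · rw [hi, Pi.single_eq_same, h4]
    · rw [Pi.single_eq_of_ne hi, h7 i hi]
  rcases hj with hj | ⟨j', hj', hjj⟩
  · exact (Finset.disjoint_left.1 hT.2.2.2.1) hu (h10 ▸ hj)
  · have h8 := h1 j'
    rw [Pi.single_eq_of_ne hj', hjj, h4, mul_one] at h8
    exact absurd h8.symm (by exact_mod_cast (hN j').ne')

theorem psi_single_nonneg (h : LiftCrd) {A Z : Finset (Fin k → ℤ)} {Φ : Fan k}
    (hT : Tri A Z Φ) {blk : Fin n → Fin k} {N : Fin n → ℕ} (hb : Function.Surjective blk)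
    (hN : ∀ j, 0 < N j) {F : Finset (Fin k → ℤ)} (hF : F ∈ Φ.mx) {c : Fin k → Fin n}
    (hc : c ∈ sel blk) (j : Fin n) :
    0 ≤ psi (liftZ blk Z) (liftCone blk N Z F c) (Pi.single j 1) := by
  have hcs := mem_sel.1 hc
  obtain ⟨-, -, -, -, -, h6⟩ := h n k A Z Φ hT blk N hb hN F hF c hc
    (fun j' => (Pi.single j 1 : Fin n → ℝ) j' / N j')
  rw [rescale N hN] at h6
  rw [h6]
  have h7 : (fun i => (Pi.single j 1 : Fin n → ℝ) (c i) / (N (c i) : ℝ)) =
      (if c (blk j) = j then 1 / (N j : ℝ) else 0) • (Pi.single (blk j) 1 : Fin k → ℝ) := by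
    funext i
    rw [Pi.smul_apply, smul_eq_mul]
    by_cases hi : c i = j
    · have hij : i = blk j := by rw [← hi, hcs i]
      subst hij
      rw [if_pos hi, hi, Pi.single_eq_same, Pi.single_eq_same, mul_one]
    · rw [Pi.single_eq_of_ne hi, zero_div]
      by_cases hij : i = blk j
      · subst hij
        rw [if_neg hi, zero_mul]
      · rw [Pi.single_eq_of_ne hij, mul_zero]
  rw [h7, psi_smul Z (Φ.mx_indep F hF) (Φ.mx_card F hF)]
  refine mul_nonneg ?_ ((hT.2.2.2.2.2.1.2.2 F hF).2 (blk j))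
  split_ifs
  · positivity
  · exact le_refl _

theorem psi_lift (h : LiftCrd) {A Z : Finset (Fin k → ℤ)} {Φ : Fan k}
    (hT : Tri A Z Φ) {blk : Fin n → Fin k} {N : Fin n → ℕ} (hb : Function.Surjective blk)
    (hN : ∀ j, 0 < N j) {F : Finset (Fin k → ℤ)} (hF : F ∈ Φ.mx) {c : Fin k → Fin n}
    (hc : c ∈ sel blk) (u : Fin k → ℤ) :
    psi (liftZ blk Z) (liftCone blk N Z F c) (toR (lift blk N u)) = psi Z F (toR u) := by
  have hcs := mem_sel.1 hc
  obtain ⟨-, -, -, -, -, h6⟩ := h n k A Z Φ hT blk N hb hN F hF c hc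
    (fun j => (u (blk j) : ℝ))
  have h7 : (fun j => (N j : ℝ) * (u (blk j) : ℝ)) = toR (lift blk N u) := by
    funext j
    simp [lift]
  have h8 : (fun i => (u (blk (c i)) : ℝ)) = toR u := by
    funext i
    rw [hcs i]; rfl
  rw [h7, h8] at h6
  exact h6

theorem tri (h : LiftCrd) {A Z : Finset (Fin k → ℤ)} {Φ : Fan k}
    (hT : Tri A Z Φ) {blk : Fin n → Fin k} {N : Fin n → ℕ} (hb : Function.Surjective blk)
    (hN : ∀ j, 0 < N j) :
    Tri (A.image (lift blk N)) (liftZ blk Z) (liftedFan h hT hb hN) := by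
  refine ⟨hT.1.image _, ?_, ?_, disj hT hb hN, rfl, ⟨?_, ?_, ?_⟩, ?_⟩
  · intro v hv j
    obtain ⟨u, hu, rfl⟩ := mem_image.1 hv
    exact mul_nonneg (by positivity) (hT.2.1 u hu _)
  · intro h0
    obtain ⟨u, hu, hu0⟩ := mem_image.1 h0
    have h1 : lift blk N (0 : Fin k → ℤ) = 0 := by
      funext j; simp [lift]
    have h2 := lift_injective hb hN (hu0.trans h1.symm)
    exact hT.2.2.1 (h2 ▸ hu)
  · exact subset_union_right
  · intro z hz
    obtain ⟨j, -, rfl⟩ := mem_image.1 hz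
    exact ⟨j, rfl⟩
  · intro F' hF'
    obtain ⟨F, hF, c, hc, rfl⟩ := mem_liftMx.1 hF'
    constructor
    · intro v hv
      obtain ⟨hv1, hv2⟩ := mem_sdiff.1 hv
      have hv3 : v ∈ A.image (lift blk N) := (mem_union.1 hv1).resolve_right hv2
      obtain ⟨u, hu, rfl⟩ := mem_image.1 hv3
      rw [psi_lift h hT hb hN hF hc]
      refine (hT.2.2.2.2.2.1.2.2 F hF).1 u ?_
      rw [mem_sdiff, hT.2.2.2.2.1]
      exact ⟨mem_union_left _ hu, Finset.disjoint_left.1 hT.2.2.2.1 hu⟩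
    · intro j
      exact psi_single_nonneg h hT hb hN hF hc j
  · intro F' hF'
    obtain ⟨F, hF, c, hc, rfl⟩ := mem_liftMx.1 hF'
    obtain ⟨a, ha, haF⟩ := hT.2.2.2.2.2.2 F hF
    obtain ⟨b, M, hb0, hM0, hM⟩ := exists_weights blk N hb hN
    refine ⟨fun j => b j * a (blk j), fun j => mul_pos (hb0 j) (ha _), ?_⟩
    intro v hv
    have h3 := (h n k A Z Φ hT blk N hb hN F hF c hc 0).2.2.1
    rw [h3] at hv
    obtain ⟨u, hu, rfl⟩ := mem_image.1 hv
    have huA : u ∈ A := by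
      rw [mem_sdiff] at hu
      have h1 := Φ.mx_sub F hF hu.1
      rw [hT.2.2.2.2.1, mem_union] at h1
      exact h1.resolve_right hu.2
    apply NA_eq _ (mem_image_of_mem _ huA)
    intro v' hv'
    obtain ⟨u', hu', rfl⟩ := mem_image.1 hv'
    rw [dot_lift blk N b M hM, dot_lift blk N b M hM]
    refine mul_le_mul_of_nonneg_left ?_ hM0.le
    rw [haF u hu]
    exact NA_le a hu'

end P4

/-- P4. -/
theorem liftFan (h : LiftCrd) : LiftFan := by
  intro n k A Z Φ hT blk N hb hN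
  refine ⟨P4.liftedFan h hT hb hN, P4.tri h hT hb hN, ?_⟩
  ext F'
  show F' ∈ P4.liftMx blk N Z Φ.mx ↔ _
  rw [P4.mem_liftMx]
  simp only [Finset.mem_biUnion, Finset.mem_image]

end Comp

end Mono
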